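import Pool.Agent.Y328.CC.Act2

/-!
# Rays in infinite transitive sets of finitely generated groups
-/

set_option autoImplicit false

open Set Function

universe u v

namespace Pool.Agent.Y759.CC

section tree

variable {Y : Type v} (p : Y → Y)

/-- the descendants of `y` -/
def Desc (y : Y) : Set Y := {z | ∃ k, p^[k] z = y}

theorem desc_step {y : Y} (hfin : {c | p c = y ∧ c ≠ y}.Finite) (h : (Desc p y).Infinite) :
    ∃ c, p c = y ∧ c ≠ y ∧ (Desc p c).Infinite := by
  classical
  by_contra hcon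
  push Not at hcon
  apply h
  have hsub : Desc p y ⊆ {y} ∪ ⋃ c ∈ {c | p c = y ∧ c ≠ y}, Desc p c := by
    rintro z hex
    have hex' : ∃ k, p^[k] z = y := hex
    by_cases h0 : Nat.find hex' = 0
    · left
      have := Nat.find_spec hex'
      rw [h0] at this
      exact this
    · right
      obtain ⟨m, hm⟩ := Nat.exists_eq_succ_of_ne_zero h0
      have h1 := Nat.find_spec hex'
      rw [hm, Nat.succ_eq_add_one, Function.iterate_succ_apply'] at h1
      have h2 : p^[m] z ≠ y := Nat.find_min hex' (by omega)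
      simp only [mem_iUnion]
      exact ⟨p^[m] z, ⟨h1, h2⟩, m, rfl⟩
  refine Set.Finite.subset ?_ hsub
  refine (finite_singleton y).union (hfin.biUnion fun c hc => ?_)
  exact hcon c hc.1 hc.2

end tree

/-- reached from `y0` by `n` steps -/
def R {G : Type u} {Y : Type v} [AddGroup G] [AddAction G Y] (S : Finset G) (y0 : Y) :
    ℕ → Y → Prop
  | 0, y => y = y0
  | n + 1, y => ∃ s ∈ S, ∃ y', R S y0 n y' ∧ y = s +ᵥ y'

theorem t_RAY : Pool.Agent.Y328.CC.S_RAY.{u, v} := by
  classical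
  intro G Y _ _ _ _ hG
  obtain ⟨T, hT⟩ := (AddGroup.fg_def.1 hG)
  obtain ⟨y0⟩ := (inferInstance : Nonempty Y)
  set S : Finset G := T ∪ T.image (fun g => -g) with hS
  have hQ : ∀ y, ∃ n, R S y0 n y := by
    have hstep : ∀ s ∈ S, ∀ y, (∃ n, R S y0 n y) → ∃ n, R S y0 n (s +ᵥ y) := by
      rintro s hs y ⟨n, hn⟩
      exact ⟨n + 1, s, hs, y, hn, rfl⟩
    have hg : ∀ g ∈ AddSubgroup.closure (T : Set G),
        (∀ y, (∃ n, R S y0 n y) → ∃ n, R S y0 n (g +ᵥ y)) ∧
        (∀ y, (∃ n, R S y0 n y) → ∃ n, R S y0 n (-g +ᵥ y)) := by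
      intro g hg
      induction hg using AddSubgroup.closure_induction with
      | mem x hx =>
        exact ⟨hstep x (Finset.mem_union_left _ hx),
          hstep (-x) (Finset.mem_union_right _ (Finset.mem_image_of_mem _ hx))⟩
      | zero =>
        refine ⟨fun y hy => ?_, fun y hy => ?_⟩
        · rw [zero_vadd]
          exact hy
        · rw [neg_zero, zero_vadd]
          exact hy
      | add a b _ _ ha hb =>
        refine ⟨fun y hy => ?_, fun y hy => ?_⟩
        · rw [add_vadd]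
          exact ha.1 _ (hb.1 _ hy)
        · rw [neg_add_rev, add_vadd]
          exact hb.2 _ (ha.2 _ hy)
      | neg a _ ha =>
        refine ⟨ha.2, ?_⟩
        rw [neg_neg]
        exact ha.1
    intro y
    obtain ⟨g, hg'⟩ := AddAction.exists_vadd_eq G y0 y
    have := (hg g (by rw [hT]; trivial)).1 y0 ⟨0, rfl⟩
    rwa [hg'] at this
  let d : Y → ℕ := fun y => Nat.find (hQ y)
  have hd : ∀ y, R S y0 (d y) y := fun y => Nat.find_spec (hQ y)
  have hdle : ∀ y n, R S y0 n y → d y ≤ n := fun y n h => Nat.find_min' (hQ y) h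
  have hd0 : ∀ y, d y = 0 → y = y0 := by
    intro y h
    have := hd y
    rw [h] at this
    exact this
  have hpar : ∀ y, ∃ y', (d y = 0 ∧ y' = y) ∨ (d y' + 1 = d y ∧ ∃ s ∈ S, y = s +ᵥ y') := by
    intro y
    rcases Nat.eq_zero_or_pos (d y) with h | h
    · exact ⟨y, Or.inl ⟨h, rfl⟩⟩
    · obtain ⟨n, hn⟩ := Nat.exists_eq_succ_of_ne_zero h.ne'
      have h1 := hd y
      rw [hn] at h1
      obtain ⟨s, hs, y', hy', h4⟩ := h1
      refine ⟨y', Or.inr ⟨?_, s, hs, h4⟩⟩
      have h2 := hdle y' n hy'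
      have h3 := hdle y (d y' + 1) ⟨s, hs, y', hd y', h4⟩
      omega
  choose p hp using hpar
  have hpd : ∀ y, d (p y) = d y - 1 := by
    intro y
    rcases hp y with ⟨h, h'⟩ | ⟨h, _⟩
    · rw [h', h]
    · omega
  have hall : Desc p y0 = univ := by
    rw [eq_univ_iff_forall]
    intro z
    refine ⟨d z, hd0 _ ?_⟩
    have h1 : ∀ k, d (p^[k] z) = d z - k := by
      intro k
      induction k with
      | zero => rfl
      | succ k ih =>
        rw [iterate_succ_apply', hpd, ih]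
        omega
    rw [h1]
    omega
  have hch : ∀ c y, p c = y → c ≠ y → d c = d y + 1 ∧ ∃ s ∈ S, c = s +ᵥ y := by
    rintro c y rfl hne
    rcases hp c with ⟨_, h'⟩ | ⟨h, h'⟩
    · exact absurd h'.symm hne
    · exact ⟨h.symm, h'⟩
  have hfin : ∀ y, {c | p c = y ∧ c ≠ y}.Finite := by
    intro y
    refine (S.finite_toSet.image fun s => s +ᵥ y).subset ?_
    rintro c ⟨h1, h2⟩
    obtain ⟨_, s, hs, h3⟩ := hch c y h1 h2
    exact ⟨s, hs, h3.symm⟩
  have hnext : ∀ y : {y // (Desc p y).Infinite}, ∃ c : {y // (Desc p y).Infinite},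
      p c.1 = y.1 ∧ c.1 ≠ y.1 := by
    rintro ⟨y, hy⟩
    obtain ⟨c, h1, h2, h3⟩ := desc_step p (hfin y) hy
    exact ⟨⟨c, h3⟩, h1, h2⟩
  choose nx hnx using hnext
  let r : ℕ → {y // (Desc p y).Infinite} :=
    fun n => Nat.rec ⟨y0, by rw [hall]; exact infinite_univ⟩ (fun _ a => nx a) n
  have hr : ∀ n, r (n + 1) = nx (r n) := fun n => rfl
  have hdr : ∀ n, d (r n).1 = d (r 0).1 + n := by
    intro n
    induction n with
    | zero => rfl
    | succ n ih =>
      rw [hr, (hch _ _ (hnx (r n)).1 (hnx (r n)).2).1, ih]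
      omega
  refine ⟨S, fun n => (r n).1, ?_, ?_⟩
  · intro m n hmn
    have h1 := hdr m
    have h2 := hdr n
    have h3 : (r m).1 = (r n).1 := hmn
    rw [h3] at h1
    omega
  · intro n
    obtain ⟨_, s, hs, h⟩ := hch _ _ (hnx (r n)).1 (hnx (r n)).2
    exact ⟨s, hs, h⟩

end Pool.Agent.Y759.CC
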