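import Pool.Agent.Y518.CC.MStm

/-!
# Limits of finite-dimensional distributions (job KOL of project Y518-CC)
-/

set_option autoImplicit false

namespace Pool.Agent.Y759.CC

open MeasureTheory Filter Topology Pool.Agent.Y518.CC
open scoped ENNReal

variable {k : ℕ} {Δ : Type}

/-- the limit of the measures of a set -/
noncomputable def mlim (ν : Δ → Measure (Om k)) (U : Ultrafilter Δ) (C : Set (Om k)) : ℝ≥0∞ :=
  (U.map fun d => ν d C).lim

theorem tendsto_mlim (ν : Δ → Measure (Om k)) (U : Ultrafilter Δ) (C : Set (Om k)) :
    Tendsto (fun d => ν d C) U (𝓝 (mlim ν U C)) := by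
  have h := (U.map fun d => ν d C).le_nhds_lim
  exact h

/-- the content on the cylinders -/
noncomputable def cont (ν : Δ → Measure (Om k)) (U : Ultrafilter Δ) :
    AddContent ℝ≥0∞ (cF k) where
  toFun := mlim ν U
  empty' := by
    have h := tendsto_mlim ν U ∅
    simp only [measure_empty] at h
    exact tendsto_nhds_unique h tendsto_const_nhds
  sUnion' I hI hd _ := by
    have h := tendsto_mlim ν U (⋃₀ ↑I)
    have h2 : Tendsto (fun d => ∑ u ∈ I, ν d u) U (𝓝 (∑ u ∈ I, mlim ν U u)) :=
      tendsto_finsetSum _ fun u _ => tendsto_mlim ν U u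
    have h3 : (fun d => ν d (⋃₀ ↑I)) = fun d => ∑ u ∈ I, ν d u := by
      funext d
      rw [Set.sUnion_eq_biUnion]
      exact measure_biUnion_finset hd fun u hu => .of_mem_measurableCylinders (hI hu)
    rw [h3] at h
    exact tendsto_nhds_unique h h2

theorem cont_apply (ν : Δ → Measure (Om k)) (U : Ultrafilter Δ) (C : Set (Om k)) :
    cont ν U C = mlim ν U C := rfl

/-- cylinders are closed -/
theorem isClosed_cyl {C : Set (Om k)} (hC : C ∈ cF k) : IsClosed C := by
  rw [mem_measurableCylinders] at hC
  obtain ⟨s, S, -, rfl⟩ := hC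
  exact IsClosed.cylinder s (isClosed_discrete S)

theorem cont_tendsto (ν : Δ → Measure (Om k)) (U : Ultrafilter Δ) ⦃s : ℕ → Set (Om k)⦄
    (hs : ∀ n, s n ∈ cF k) (ha : Antitone s) (hi : ⋂ n, s n = ∅) :
    Tendsto (fun n => cont ν U (s n)) atTop (𝓝 0) := by
  have h : ∃ n, s n = ∅ := by
    by_contra hne
    push Not at hne
    have := IsCompact.nonempty_iInter_of_sequence_nonempty_isCompact_isClosed s
      (fun n => ha (Nat.le_succ n)) hne (isClosed_cyl (hs 0)).isCompact
      (fun n => isClosed_cyl (hs n))
    rw [hi] at this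
    exact Set.not_nonempty_empty this
  obtain ⟨n, hn⟩ := h
  refine tendsto_const_nhds.congr' ?_
  filter_upwards [eventually_ge_atTop n] with m hm
  have : s m = ∅ := Set.subset_empty_iff.mp (hn ▸ ha hm)
  rw [this, addContent_empty]

theorem main : S_KOL := by
  intro k Δ ν hν U
  have hsub : (cont ν U).IsSigmaSubadditive := by
    refine isSigmaSubadditive_of_addContent_iUnion_eq_tsum isSetRing_measurableCylinders
      (fun f hf hf_Union hf' => ?_)
    refine addContent_iUnion_eq_sum_of_tendsto_zero isSetRing_measurableCylinders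
      (cont ν U) (fun s _ => ?_) (cont_tendsto ν U) hf hf_Union hf'
    have h := tendsto_mlim ν U s
    have h2 : mlim ν U s ≤ 1 := le_of_tendsto' h fun d => by
      have := hν d
      exact prob_le_one
    exact (h2.trans_lt ENNReal.one_lt_top).ne
  refine ⟨(cont ν U).measure isSetSemiring_measurableCylinders
    generateFrom_measurableCylinders.ge hsub, ?_, ?_⟩
  · constructor
    rw [AddContent.measure_eq _ _ generateFrom_measurableCylinders.symm _
      (univ_mem_measurableCylinders _), cont_apply]
    have h := tendsto_mlim ν U Set.univ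
    have h3 : (fun d => ν d Set.univ) = fun _ => 1 := by
      funext d
      have := hν d
      exact measure_univ
    rw [h3] at h
    exact tendsto_nhds_unique h tendsto_const_nhds
  · intro C hC
    rw [AddContent.measure_eq _ _ generateFrom_measurableCylinders.symm _ hC, cont_apply]
    exact tendsto_mlim ν U C

end Pool.Agent.Y759.CC
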